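import Pool.Agent.H503R3.FR.Final
import Pool.Agent.H768R3.FR.Parity
import Pool.Agent.H54.FR.TaskCoord
import Pool.Agent.H503R3.FR.TaskMem_helper782
import Pool.Agent.H503R3.FR.Root_helper331
import Pool.Agent.H614R3.TC
import Pool.Agent.H503R3.FR.Psi_helper600
import Pool.Agent.H123R3.FR.Scale
import Pool.Agent.H503R3.FR.KV_helper557
import Pool.Agent.H174R3.FR.Colon
import Pool.Agent.H66R3.FR.ZsReg
import Pool.Agent.H3R3.FR.ZsPrime
import Pool.Agent.H503R3.FR.TaskZsDim_helper62
import Pool.Agent.H503R3.FR.TaskHR_helper405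
import Pool.Agent.H980R3.FR.TaskVertex
import Pool.Agent.H22R3.FR.Case1
import Pool.Agent.H591R3.FR.Case2
import Pool.Agent.H474R3.FR.TaskSFR
import Pool.Agent.H339R3.FR.HT
import Pool.Agent.H503R3.FR.TaskV2_helper544

set_option autoImplicit false

namespace H503R3.NF

open H503R3.FR

theorem frationalAll (k : Type) [Field k] [IsAlgClosed k] [CharP k 2] : FRational 2 (R k) :=
  frational Pool.Agent.H614R3.TC.taskTC Scale.taskScale SFR474.taskSFR Parity768.taskParity
    Coord54.taskCoord Mem782.taskMem Root331.taskRoot Psi600.taskPsi KV557.taskKV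
    Colon.taskColon Pool.Agent.H66R3.FR.taskZsReg H3R3.FR.ZsPrime.taskZsPrime
    taskZsDim HT339.taskHT taskHR V980.taskVertex V2h544.taskV2 taskCase1 Case2H591.taskCase2 k

end H503R3.NF
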