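import Pool.Agent.H503R3.NF.Stmts

set_option autoImplicit false

open IsLocalRing MvPolynomial

namespace H503R3.NF

open FR (R r hyp E w D)

theorem char2 (k : Type) [Field k] [CharP k 2] (P : Ideal (R k)) [P.IsPrime]
    (b : Localization.AtPrime P) : b + b = 0 := by
  have h2 : (2 : k) = 0 := CharTwo.two_eq_zero
  have h3 : (2 : R k) = 0 := by
    rw [← map_ofNat (algebraMap k (R k)) 2, h2, map_zero]
  have h4 : (2 : Localization.AtPrime P) = 0 := by
    rw [← map_ofNat (algebraMap (R k) (Localization.AtPrime P)) 2, h3, map_zero]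
  rw [← two_mul, h4, zero_mul]

theorem finjective (hMem : FR.TaskMem) (hVan : TaskVanC) (hFS : TaskFS) (hTop : TaskTop)
    (hFC : TaskFC) (hSplit : TaskSplit)
    (hCo : FR.TaskCoord) (hPar : FR.TaskParity) (hPsi : FR.TaskPsi) (hZs : FR.TaskZs)
    (k : Type) [Field k] [IsAlgClosed k] [CharP k 2] (hFR : FR.FRational 2 (R k)) :
    FInjective 2 (R k) := by
  intro P _
  by_cases h : r k 1 ∉ P ∨ r k 3 ∉ P
  · obtain ⟨φ, hφ⟩ := hSplit hMem hCo hPar hPsi k P h
    exact hFS _ (char2 k P) φ hφ
  · push Not at h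
    obtain ⟨zs, -, -, zr, hz1, hz2, hz3, hz4⟩ := hZs hMem k P h.1 h.2
    have hlen : zr.length = zs.length := by
      have := congrArg List.length hz1
      simpa using this
    refine hTop hVan _ (char2 k P) (zr.map (algebraMap (R k) (Localization.AtPrime P))) ?_ ?_ ?_
      (hFC _ (char2 k P) (hFR P))
    · exact hz2.of_isLocalization (Localization.AtPrime P) P.primeCompl
    · intro z hz
      obtain ⟨y, hy, rfl⟩ := List.mem_map.1 hz
      exact (IsLocalization.AtPrime.to_map_mem_maximal_iff (Localization.AtPrime P) P y).2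
        (hz3 y hy)
    · rw [List.length_map, hlen]
      exact hz4

end H503R3.NF
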