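import Pool.Agent.H503R3.NF.Defs
import Pool.Agent.H503R3.FR.Stmts

/-! Tasks for the normal F-injective counterexample (same ring `R k` as in `FR`). -/

set_option autoImplicit false

universe u v

open IsLocalRing MvPolynomial

namespace H503R3.NF

open FR (R r hyp E w D)

/-- Vanishing of the Cech cohomology on `x` in degree `i`. -/
def Van {B : Type u} [CommRing B] {n : ℕ} (x : Fin n → B) (i : ℕ) : Prop :=
  ∀ c : Cochain x i, d x i c = 0 → IsCoboundary x i c

/-- Task VanC: Cech cohomology vanishes below the length of a regular sequence in the radical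
(rings of characteristic 2). -/
def TaskVanC : Prop := ∀ (B : Type) [CommRing B], (∀ b : B, b + b = 0) →
  ∀ (n : ℕ) (x : Fin n → B) (zs : List B),
    RingTheory.Sequence.IsWeaklyRegular B zs →
    (∀ z ∈ zs, z ∈ (Ideal.span (Set.range x)).radical) → ∀ i < zs.length, Van x i

/-- A Frobenius splitting of `B`. -/
structure FSplit (p : ℕ) (B : Type) [CommRing B] (φ : B → B) : Prop where
  add : ∀ a b, φ (a + b) = φ a + φ b
  smul : ∀ r a, φ (r ^ p * a) = r * φ a
  one : φ 1 = 1

/-- Task FS: Frobenius split local rings are F-injective (`p > 0`; no characteristic needed,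
but `2`-torsion rings suffice). -/
def TaskFS : Prop := ∀ (B : Type) [CommRing B] [IsLocalRing B], (∀ b : B, b + b = 0) →
  ∀ φ : B → B, FSplit 2 B φ → FInjectiveLocal 2 B

/-- Task Top: a local ring of characteristic 2 with a regular sequence of length `≥ dim` in
the maximal ideal in which all ideals generated by systems of parameters are Frobenius closed
is F-injective. -/
def TaskTop : Prop := TaskVanC → ∀ (B : Type) [CommRing B] [IsLocalRing B],
  (∀ b : B, b + b = 0) → ∀ zs : List B, RingTheory.Sequence.IsWeaklyRegular B zs →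
    (∀ z ∈ zs, z ∈ maximalIdeal B) → ringKrullDim B ≤ (zs.length : WithBot ℕ∞) →
    (∀ (n : ℕ) (x : Fin n → B), IsSystemOfParameters x →
      ∀ z : B, z ^ 2 ∈ Ideal.span (Set.range fun l => x l ^ 2) →
        z ∈ Ideal.span (Set.range x)) →
    FInjectiveLocal 2 B

/-- Task FC: F-rational implies Frobenius closed parameter ideals. -/
def TaskFC : Prop := ∀ (B : Type) [CommRing B] [IsLocalRing B], (∀ b : B, b + b = 0) →
  FR.FRationalLocal 2 B → ∀ (n : ℕ) (x : Fin n → B), IsSystemOfParameters x →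
      ∀ z : B, z ^ 2 ∈ Ideal.span (Set.range fun l => x l ^ 2) → z ∈ Ideal.span (Set.range x)

/-- Task Split: `R` localised away from the vertex is Frobenius split. -/
def TaskSplit : Prop := FR.TaskMem → FR.TaskCoord → FR.TaskParity → FR.TaskPsi →
  ∀ (k : Type) [Field k] [IsAlgClosed k] [CharP k 2]
  (P : Ideal (R k)) [P.IsPrime], (r k 1 ∉ P ∨ r k 3 ∉ P) →
    ∃ φ, FSplit 2 (Localization.AtPrime P) φ

/-- Task Normal. -/
def TaskNormal : Prop := FR.TaskMem → FR.TaskCoord → FR.TaskParity → FR.TaskRoot →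
  ∀ (k : Type) [Field k] [IsAlgClosed k] [CharP k 2], IsIntegrallyClosed (R k)

/-- Task NegAlg: the socle class in the hyperplane section is nonzero. -/
def TaskNegAlg : Prop := FR.TaskG2 → FR.TaskG3 → FR.TaskKV → FR.TaskZsReg → FR.TaskMem →
  ∀ (k : Type) [Field k] [CharP k 2] (a : Fin 7 → k) (q : k),
  a 1 ≠ 0 → q ^ 2 * a 1 = a 0 → ∀ (N : ℕ) (u : R k),
    u * ((r k 4 + algebraMap k (R k) q * r k 5) * (r k 1 * r k 3) ^ N) ∈
      Ideal.span {r k 1 ^ (N + 1), r k 3 ^ (N + 1), hyp k a} →
    FR.evq k q u = 0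

/-- Task Neg: no hyperplane section with `a 1 ≠ 0` is F-injective. -/
def TaskNeg : Prop := TaskNegAlg → FR.TaskG1 → FR.TaskG3 → FR.TaskG4 → FR.TaskG2 →
  FR.TaskKV → FR.TaskZsReg → FR.TaskMem →
  ∀ (k : Type) [Field k] [IsAlgClosed k] [CharP k 2] (a : Fin 7 → k), a 1 ≠ 0 →
    ¬ FInjective 2 (R k ⧸ Ideal.span {hyp k a})

end H503R3.NF
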