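import Pool.Agent.H503R3.NF.Stmts

set_option autoImplicit false

open IsLocalRing MvPolynomial

namespace H503R3.NF.TaskFC699

theorem pow_mem_frob {B : Type} [CommRing B] [CharP B 2] {n : ℕ} (x : Fin n → B) (m : ℕ)
    (a : B) (ha : a ∈ Ideal.span (Set.range fun l => x l ^ 2)) :
    a ^ (2 ^ m) ∈ FR.frobPower (Ideal.span (Set.range x)) (2 ^ (m + 1)) := by
  haveI : Fact (Nat.Prime 2) := ⟨Nat.prime_two⟩
  refine Submodule.span_induction ?_ ?_ ?_ ?_ ha
  · rintro _ ⟨l, rfl⟩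
    refine Ideal.subset_span ⟨x l, Ideal.subset_span ⟨l, rfl⟩, ?_⟩
    simp only
    rw [← pow_mul]
    congr 1
    ring
  · rw [zero_pow (by positivity)]
    exact Ideal.zero_mem _
  · intro a b _ _ ha hb
    rw [add_pow_char_pow]
    exact Ideal.add_mem _ ha hb
  · intro r a _ ha
    rw [smul_eq_mul, mul_pow]
    exact Ideal.mul_mem_left _ _ ha

theorem taskFC : TaskFC := by
  intro B _ _ h2 hF n x hx z hz
  haveI : CharP B 2 := CharTwo.of_one_ne_zero_of_two_eq_zero one_ne_zero (by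
    have := h2 1
    rwa [one_add_one_eq_two] at this)
  refine hF n x ⟨hx.1, hx.2⟩ z ⟨1, ?_, 1, ?_⟩
  · intro Q hQ h1
    exact hQ.1.1.ne_top ((Ideal.eq_top_iff_one Q).2 h1)
  · intro e he
    obtain ⟨m, rfl⟩ : ∃ m, e = m + 1 := ⟨e - 1, by omega⟩
    rw [one_mul]
    have : z ^ (2 ^ (m + 1)) = (z ^ 2) ^ (2 ^ m) := by
      rw [← pow_mul]; congr 1; ring
    rw [this]
    exact pow_mem_frob x m _ hz

end H503R3.NF.TaskFC699
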