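import Pool.Agent.H503R3.NF.Stmts
import Pool.Agent.H503R3.FI.TaskC2

/-! Task FS: Frobenius split local rings are F-injective. -/

set_option autoImplicit false

open IsLocalRing

namespace H503R3.NF.TaskFS

open H503R3.NF

theorem res_algebraMap {B : Type} [CommRing B] {n : ℕ} (x : Fin n → B)
    {S' S : Finset (Fin n)} (h : S' ⊆ S) (b : B) :
    res x h (algebraMap B (L x S') b) = algebraMap B (L x S) b := by
  unfold res
  exact IsLocalization.Away.lift_eq _ _ _

theorem exists_ext {B : Type} [CommRing B] {φ : B → B} (hφ : FSplit 2 B φ) {n : ℕ}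
    (x : Fin n → B) : ∃ ψ : ∀ S : Finset (Fin n), L x S → L x S,
      (∀ S a b, ψ S (a + b) = ψ S a + ψ S b) ∧
      (∀ S (r a : L x S), ψ S (r ^ 2 * a) = r * ψ S a) ∧ (∀ S, ψ S 1 = 1) ∧
      (∀ S (b : B), ψ S (algebraMap B (L x S) b) = algebraMap B (L x S) (φ b)) := by
  have hφ' : H503R3.FI.FSplit 2 B φ := ⟨hφ.add, hφ.smul, hφ.one⟩
  have h : ∀ S : Finset (Fin n), ∃ ψ : L x S → L x S, H503R3.FI.FSplit 2 (L x S) ψ ∧
      ∀ b, ψ (algebraMap B (L x S) b) = algebraMap B (L x S) (φ b) := fun S =>
    H503R3.FI.TaskC2.taskC2 2 (by norm_num) B φ (Submonoid.powers (∏ l ∈ S, x l)) (L x S) hφ'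
  choose ψ hψ1 hψ2 using h
  exact ⟨ψ, fun S => (hψ1 S).add, fun S => (hψ1 S).smul, fun S => (hψ1 S).one, hψ2⟩

theorem taskFS : TaskFS := by
  intro B _ _ h2 φ hφ n x _ i c hdc hcob
  obtain ⟨ψ, hadd, hsmul, hone, halg⟩ := exists_ext hφ x
  have hzero : ∀ S, ψ S 0 = 0 := by
    intro S
    have := hsmul S 0 0
    rw [zero_mul] at this
    simpa using this
  have hsq : ∀ S (a : L x S), ψ S (a ^ 2) = a := by
    intro S a
    have := hsmul S a 1
    rw [mul_one, hone, mul_one] at this
    exact this
  -- compatibility with the restriction maps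
  have hres : ∀ (S' S : Finset (Fin n)) (h : S' ⊆ S) (z : L x S'),
      res x h (ψ S' z) = ψ S (res x h z) := by
    intro S' S h z
    obtain ⟨s, a, hs⟩ := H503R3.FI.TaskC2.exists_den (p := 2) (by norm_num)
      (Submonoid.powers (∏ l ∈ S', x l)) z
    have e1 : ψ S' z * algebraMap B (L x S') s = algebraMap B (L x S') (φ a) := by
      rw [← halg, ← hs, mul_comm z, hsmul, mul_comm]
    have e2 : res x h (ψ S' z) * algebraMap B (L x S) s = algebraMap B (L x S) (φ a) := by
      rw [← res_algebraMap x h, ← res_algebraMap x h, ← map_mul, e1]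
    have e3 : res x h z * algebraMap B (L x S) s ^ 2 = algebraMap B (L x S) a := by
      rw [← res_algebraMap x h, ← res_algebraMap x h, ← map_pow, ← map_mul, hs]
    have e4 : ψ S (res x h z) * algebraMap B (L x S) s = algebraMap B (L x S) (φ a) := by
      rw [← halg, ← e3, mul_comm (res x h z), hsmul, mul_comm]
    have hu : IsUnit (algebraMap B (L x S) (s : B)) := by
      obtain ⟨m, hm⟩ := s.2
      have hm' : (∏ l ∈ S', x l) ^ m = (s : B) := hm
      rw [← hm', map_pow]
      exact (isUnit_prod x h).pow m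
    apply hu.mul_right_cancel
    rw [e2, e4]
  cases i with
  | zero =>
    show c = 0
    have h0 : (fun S => c S ^ 2) = (0 : Cochain x 0) := hcob
    funext S
    have h1 := congrFun h0 S
    have h3 : c S ^ 2 = 0 := h1
    rw [← hsq S.1 (c S), h3, hzero]
    rfl
  | succ i =>
    obtain ⟨b, hb⟩ := hcob
    refine ⟨fun T => ψ T.1 (b T), ?_⟩
    funext S
    have h1 := congrFun hb S
    have hsign : ∀ m : ℕ, ((-1 : L x S.1)) ^ m = 1 := by
      intro m
      have h3 : (1 : L x S.1) + 1 = 0 := by
        have := congrArg (algebraMap B (L x S.1)) (h2 1)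
        simpa using this
      have h4 : (-1 : L x S.1) = 1 := by
        linear_combination -h3
      rw [h4, one_pow]
    simp only [d] at h1 ⊢
    simp only [hsign, one_mul] at h1 ⊢
    rw [← hsq S.1 (c S), ← h1]
    have hsum : ∀ (t : Finset {l : Fin n // l ∈ S.1}) (f : {l : Fin n // l ∈ S.1} → L x S.1),
        ψ S.1 (∑ l ∈ t, f l) = ∑ l ∈ t, ψ S.1 (f l) := by
      classical
      intro t f
      induction t using Finset.induction_on with
      | empty => simp [hzero]
      | insert a t ha ih => rw [Finset.sum_insert ha, Finset.sum_insert ha, hadd, ih]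
    rw [hsum]
    apply Finset.sum_congr rfl
    intro l _
    exact hres _ _ _ _

end H503R3.NF.TaskFS
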