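import Pool.Agent.H503R3.NF.Stmts

/-! Task NegAlg: the socle class in the hyperplane section is nonzero.  (helper676) -/

set_option autoImplicit false

open IsLocalRing MvPolynomial

namespace H503R3.NF.NegAlg676

open FR (R r hyp E w D evq)

theorem cancel {A : Type} [CommRing A] (x y h ζ : A) (i : ℕ)
    (H : FR.H1van A ![x ^ i, y, h]) (hζ : x ^ i * ζ ∈ Ideal.span {x ^ (i + 1), y, h}) :
    ζ ∈ Ideal.span {x, y, h} := by
  rw [Ideal.mem_span_insert] at hζ
  obtain ⟨al, b, hb, hab⟩ := hζ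
  rw [Ideal.mem_span_pair] at hb
  obtain ⟨be, ga, rfl⟩ := hb
  have h0 := H ![ζ - x * al, -be, -ga] (by
    simp only [Fin.sum_univ_three, smul_eq_mul, Matrix.cons_val_zero, Matrix.cons_val_one,
      Matrix.cons_val_two, Matrix.head_cons, Matrix.tail_cons]
    linear_combination hab)
  obtain ⟨t, ht1, -, ht3⟩ := h0
  have h1 := ht3 0
  simp only [Fin.sum_univ_three, smul_eq_mul, Matrix.cons_val_zero, Matrix.cons_val_one,
    Matrix.cons_val_two, Matrix.head_cons, Matrix.tail_cons, ht1 0, mul_zero, zero_add] at h1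
  have h2 : ζ = al * x + (t 0 1 * y + t 0 2 * h) := by linear_combination h1
  rw [h2, Ideal.mem_span_insert]
  exact ⟨al, _, Ideal.mem_span_pair.mpr ⟨_, _, rfl⟩, rfl⟩

theorem rad_le {A : Type} [CommRing A] (x y h : A) (i j : ℕ) :
    (Ideal.span {x, y, h}).radical ≤
      (Ideal.span (Set.range ![x ^ i, y ^ j, h])).radical := by
  rw [Ideal.radical_le_radical_iff, Ideal.span_le]
  rintro z hz
  simp only [Set.mem_insert_iff, Set.mem_singleton_iff] at hz
  rcases hz with rfl | rfl | rfl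
  · exact ⟨i, Ideal.subset_span ⟨0, rfl⟩⟩
  · exact ⟨j, Ideal.subset_span ⟨1, rfl⟩⟩
  · exact Ideal.le_radical (Ideal.subset_span ⟨2, rfl⟩)

theorem core {B F : Type} [CommRing B] [Field F] (ev : B →+* F) (r1 r3 h z e : B)
    (h2B : (2 : B) = 0) (e1 : ev r1 = 0) (e3 : ev r3 = 0) (eE : ev e = 0)
    (hreg3 : RingTheory.Sequence.IsWeaklyRegular B [r1, r3, e])
    (hrad : ∀ v, ev v = 0 → ∃ M : ℕ, v ^ M ∈ Ideal.span {r1, r3, h}) (hKV : FR.TaskKV)
    (hn : ∀ u, u * z ∈ Ideal.span {r1, r3, h} → ev u = 0) (N : ℕ) (u : B)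
    (hu : u * (z * (r1 * r3) ^ N) ∈ Ideal.span {r1 ^ (N + 1), r3 ^ (N + 1), h}) :
    ev u = 0 := by
  by_contra hne
  have hPp : (RingHom.ker ev).IsPrime := RingHom.ker_isPrime _
  set P : Ideal B := RingHom.ker ev with hP
  let A := Localization.AtPrime P
  let loc : B →+* A := algebraMap B A
  have h2 : ∀ m : A, m + m = 0 := by
    intro m
    have h' : (2 : A) = 0 := by
      rw [← map_ofNat loc 2, h2B, map_zero]
    rw [← two_mul, h', zero_mul]
  have hregA := RingTheory.Sequence.IsWeaklyRegular.of_isLocalization A P.primeCompl hreg3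
  have hradR : ∀ v : B, ev v = 0 → loc v ∈
      (Ideal.span {loc r1, loc r3, loc h}).radical := by
    intro v hv
    obtain ⟨M, hM⟩ := hrad v hv
    refine ⟨M, ?_⟩
    rw [← map_pow]
    have := Ideal.mem_map_of_mem loc hM
    rw [Ideal.map_span] at this
    simpa only [Set.image_insert_eq, Set.image_singleton] using this
  have hswap : Ideal.span {loc r3, loc r1, loc h} =
      Ideal.span {loc r1, loc r3, loc h} := by
    rw [Set.insert_comm]
  have KV : ∀ x : Fin 3 → A, (∀ v : B, ev v = 0 →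
      loc v ∈ (Ideal.span (Set.range x)).radical) → FR.H1van A x := by
    intro x hx
    refine hKV A A h2 3 x _ hregA ?_ (by simp)
    intro z hz
    simp only [List.map_cons, List.map_nil, List.mem_cons, List.not_mem_nil, or_false] at hz
    rcases hz with rfl | rfl | rfl
    · exact hx _ e1
    · exact hx _ e3
    · exact hx _ eE
  have K1 : ∀ i j : ℕ, FR.H1van A ![loc r1 ^ i, loc r3 ^ j, loc h] :=
    fun i j => KV _ fun v hv => rad_le _ _ _ i j (hradR v hv)
  have K2 : ∀ i j : ℕ, FR.H1van A ![loc r3 ^ i, loc r1 ^ j, loc h] :=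
    fun i j => KV _ fun v hv => rad_le _ _ _ i j (by rw [hswap]; exact hradR v hv)
  have hunit : IsUnit (loc u) := by
    have : u ∈ P.primeCompl := by
      intro h
      exact hne h
    exact IsLocalization.map_units A (⟨u, this⟩ : P.primeCompl)
  have s1 : loc r1 ^ N * (loc r3 ^ N * loc z) ∈
      Ideal.span {loc r1 ^ (N + 1), loc r3 ^ (N + 1), loc h} := by
    have h3 := Ideal.mem_map_of_mem loc hu
    rw [Ideal.map_span] at h3
    simp only [Set.image_insert_eq, Set.image_singleton, map_mul, map_pow] at h3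
    rw [Ideal.unit_mul_mem_iff_mem _ hunit] at h3
    have h4 : loc r1 ^ N * (loc r3 ^ N * loc z) =
        loc z * (loc r1 * loc r3) ^ N := by ring
    rw [h4]
    exact h3
  have s2 : loc r3 ^ N * loc z ∈
      Ideal.span {loc r1, loc r3 ^ (N + 1), loc h} :=
    cancel _ _ _ _ N (K1 N (N + 1)) s1
  have s3 : loc z ∈ Ideal.span {loc r3, loc r1, loc h} := by
    have K3 := K2 N 1
    rw [pow_one] at K3
    apply cancel _ _ _ _ N K3
    rwa [Set.insert_comm]
  rw [hswap] at s3
  have s4 : loc z ∈ Ideal.map loc (Ideal.span {r1, r3, h}) := by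
    rw [Ideal.map_span]
    simpa only [Set.image_insert_eq, Set.image_singleton] using s3
  rw [IsLocalization.algebraMap_mem_map_algebraMap_iff P.primeCompl A] at s4
  obtain ⟨t, ht, htz⟩ := s4
  exact ht (hn t htz)

theorem main : TaskNegAlg := by
  intro hG2 hG3 hKV hReg hMem k _ _ a q ha hq N u hu
  have h2 : (2 : R k) = 0 := by
    have h0 : (2 : k) = 0 := by exact_mod_cast CharP.cast_eq_zero k 2
    rw [← map_ofNat (algebraMap k (R k)) 2, h0, map_zero]
  obtain ⟨hhyp, hrad⟩ := hG3 k a q ha hq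
  obtain ⟨-, -, hreg⟩ := hReg hMem k
  obtain ⟨-, -, hE, hreg3⟩ := hreg (Polynomial.X - Polynomial.C (q ^ 2))
    (Polynomial.X_sub_C_ne_zero _)
  refine core (F := k) (evq k q).toRingHom (r k 1) (r k 3) (hyp k a)
    (r k 4 + algebraMap k (R k) q * r k 5) _ h2 ?_ ?_ ?_ hreg3 hrad hKV
    (hG2 hMem k a q ha hq) N u hu
  · change (MvPolynomial.aeval ![q, 0, 0]) (FR.gen k 1) = 0
    simp [FR.gen]
  · change (MvPolynomial.aeval ![q, 0, 0]) (FR.gen k 3) = 0
    simp [FR.gen]
  · change (MvPolynomial.aeval ![q, 0, 0])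
      (E k (FR.polyX0 (Polynomial.X - Polynomial.C (q ^ 2)))) = 0
    simp [FR.polyX0]

end H503R3.NF.NegAlg676

namespace H503R3.NF

theorem taskNegAlg : TaskNegAlg := NegAlg676.main

end H503R3.NF
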