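import Pool.Agent.H503R3.NF.Stmts

/-! Task Top: F-injectivity of a local ring of characteristic 2 with a long regular sequence in
which parameter ideals are Frobenius closed. -/

set_option autoImplicit false

open IsLocalRing

namespace H503R3.NF.Top

open H503R3.NF

variable {B : Type} [CommRing B] {n : ℕ}

lemma res_algebraMap (x : Fin n → B) {S' S : Finset (Fin n)} (h : S' ⊆ S) (a : B) :
    res x h (algebraMap B (L x S') a) = algebraMap B (L x S) a := by
  unfold res
  rw [IsLocalization.Away.lift_eq]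

lemma sign_char2 {A : Type} [CommRing A] (hA : ∀ a : A, a + a = 0) (k : ℕ) : (-1 : A) ^ k = 1 := by
  have : (-1 : A) = 1 := by
    rw [neg_eq_iff_add_eq_zero]
    exact hA 1
  rw [this, one_pow]

lemma char2_L (hB : ∀ b : B, b + b = 0) (x : Fin n → B) (S : Finset (Fin n)) (a : L x S) :
    a + a = 0 := by
  have h : (2 : L x S) = 0 := by
    have h1 : (1 : B) + 1 = 0 := hB 1
    have h2 := congrArg (algebraMap B (L x S)) h1
    rw [map_add, map_one, map_zero, one_add_one_eq_two] at h2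
    exact h2
  rw [← two_mul, h, zero_mul]

/-- powers of a system of parameters are a system of parameters -/
lemma sop_pow {B : Type} [CommRing B] [IsLocalRing B] {n : ℕ} (x : Fin n → B)
    (hx : IsSystemOfParameters x) (k : ℕ) (hk : k ≠ 0) :
    IsSystemOfParameters (fun l => x l ^ k) := by
  refine ⟨hx.1, ?_⟩
  rw [← hx.2]
  apply le_antisymm
  · apply Ideal.radical_mono
    rw [Ideal.span_le]
    rintro _ ⟨l, rfl⟩
    exact Ideal.pow_mem_of_mem (Ideal.span (Set.range x))
      (Ideal.subset_span (Set.mem_range_self l)) _ (Nat.pos_of_ne_zero hk)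
  · rw [Ideal.radical_le_radical_iff]
    rw [Ideal.span_le]
    rintro _ ⟨l, rfl⟩
    exact ⟨k, Ideal.subset_span (Set.mem_range_self l)⟩

/-- the degree zero case -/
lemma case_zero {B : Type} [CommRing B] [IsLocalRing B] (x : Fin 0 → B)
    (H : ∀ z : B, z ^ 2 ∈ Ideal.span (Set.range fun l => x l ^ 2) → z ∈ Ideal.span (Set.range x))
    (c : Cochain x 0) (hc : (fun S => c S ^ 2) = (0 : Cochain x 0)) : c = 0 := by
  funext S
  have h1 : c S ^ 2 = 0 := congrFun hc S
  have hS : (∏ l ∈ S.1, x l) = 1 := by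
    have : S.1 = ∅ := Finset.card_eq_zero.mp S.2
    rw [this, Finset.prod_empty]
  obtain ⟨m, z, hz⟩ := IsLocalization.Away.surj (∏ l ∈ S.1, x l) (c S)
  have hp : algebraMap B (L x S.1) (∏ l ∈ S.1, x l) = 1 :=
    (congrArg (algebraMap B (L x S.1)) hS).trans (map_one _)
  have hz' : c S = algebraMap B (L x S.1) z := by
    rw [← hz, hp, one_pow, mul_one]
  rw [hz', ← map_pow] at h1
  rw [IsLocalization.map_eq_zero_iff (Submonoid.powers (∏ l ∈ S.1, x l))] at h1
  obtain ⟨⟨s, k, hk⟩, hs⟩ := h1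
  have hs1 : s = 1 := by
    rw [← hk]
    simp only
    rw [hS, one_pow]
  subst hs1
  simp only [one_mul] at hs
  have h2 := H z (by rw [hs]; exact Ideal.zero_mem _)
  have h3 : Set.range x = ∅ := by
    rw [Set.range_eq_empty_iff]
    infer_instance
  rw [h3, Ideal.span_empty, Ideal.mem_bot] at h2
  rw [hz', h2, map_zero]
  rfl

/-- the whole index set -/
def U (m : ℕ) : {S : Finset (Fin (m + 1)) // S.card = m + 1} := ⟨Finset.univ, by simp⟩

lemma eq_U {m : ℕ} (S : {S : Finset (Fin (m + 1)) // S.card = m + 1}) : S = U m := by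
  apply Subtype.ext
  exact Finset.eq_univ_of_card S.1 (by rw [S.2, Fintype.card_fin])

/-- the top degree case -/
lemma case_top {B : Type} [CommRing B] [IsLocalRing B] (hB : ∀ b : B, b + b = 0) {m : ℕ}
    (x : Fin (m + 1) → B)
    (H : ∀ k : ℕ, k ≠ 0 → ∀ z : B, z ^ 2 ∈ Ideal.span (Set.range fun l => (x l ^ k) ^ 2) →
      z ∈ Ideal.span (Set.range fun l => x l ^ k))
    (c : Cochain x (m + 1)) (b : Cochain x m) (hc : d x m b = fun S => c S ^ 2) :
    ∃ b' : Cochain x m, d x m b' = c := by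
  set π : B := ∏ l ∈ (U m).1, x l with hπ
  have hx : ∀ l : {l : Fin (m + 1) // l ∈ (U m).1}, x l.1 * ∏ j ∈ (U m).1.erase l.1, x j = π :=
    fun l => Finset.mul_prod_erase _ _ l.2
  obtain ⟨r, z, hz⟩ := IsLocalization.Away.surj (∏ l ∈ (U m).1, x l) (c (U m))
  -- denominators of `b`
  let b1 : ∀ l : {l : Fin (m + 1) // l ∈ (U m).1}, L x ((U m).1.erase l.1) :=
    fun l => b (del (U m) l)
  have hb : ∀ l : {l : Fin (m + 1) // l ∈ (U m).1}, ∃ (N : ℕ) (a : B),
      b1 l * algebraMap B (L x ((U m).1.erase l.1)) (∏ j ∈ (U m).1.erase l.1, x j) ^ N =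
        algebraMap B (L x ((U m).1.erase l.1)) a :=
    fun l => IsLocalization.Away.surj _ _
  choose N a hNa using hb
  set M : ℕ := 1 + ∑ l, N l with hM
  have hMN : ∀ l, N l ≤ M := fun l =>
    (Finset.single_le_sum (f := N) (fun _ _ => Nat.zero_le _) (Finset.mem_univ l)).trans (by omega)
  -- the elements of `L x univ`
  have hres : ∀ l : {l : Fin (m + 1) // l ∈ (U m).1},
      res x (Finset.erase_subset l.1 (U m).1) (b1 l) *
        algebraMap B (L x (U m).1) π ^ M =
      algebraMap B (L x (U m).1)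
        (a l * (∏ j ∈ (U m).1.erase l.1, x j) ^ (M - N l) * x l.1 ^ M) := by
    intro l
    have h3 := congrArg (res x (Finset.erase_subset l.1 (U m).1)) (hNa l)
    rw [map_mul, map_pow, res_algebraMap, res_algebraMap] at h3
    have h4 : π ^ M = (∏ j ∈ (U m).1.erase l.1, x j) ^ N l *
        ((∏ j ∈ (U m).1.erase l.1, x j) ^ (M - N l) * x l.1 ^ M) := by
      rw [← mul_assoc, ← pow_add, Nat.add_sub_cancel' (hMN l), ← mul_pow, mul_comm, hx l]
    rw [← map_pow, h4, map_mul, map_pow, ← mul_assoc, h3, ← map_mul, mul_assoc]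
  have hsign : ∀ k : ℕ, (-1 : L x (U m).1) ^ k = 1 := sign_char2 (char2_L hB x (U m).1)
  have hcU : c (U m) ^ 2 = ∑ l : {l : Fin (m + 1) // l ∈ (U m).1},
      res x (Finset.erase_subset l.1 (U m).1) (b1 l) := by
    rw [← congrFun hc (U m)]
    unfold d
    refine Finset.sum_congr rfl fun l _ => ?_
    rw [hsign, one_mul]
  set A : {l : Fin (m + 1) // l ∈ (U m).1} → B :=
    fun l => a l * (∏ j ∈ (U m).1.erase l.1, x j) ^ (M - N l) with hA
  have hz2 : algebraMap B (L x (U m).1) (z ^ 2 * π ^ M) =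
      algebraMap B (L x (U m).1) ((∑ l, A l * x l.1 ^ M) * π ^ (2 * r)) := by
    rw [map_mul, map_pow, ← hz, mul_pow, hcU, map_mul, map_sum, map_pow, map_pow, ← pow_mul,
      mul_comm r 2, mul_assoc, mul_comm (_ ^ (2 * r)), ← mul_assoc, Finset.sum_mul]
    congr 1
    exact Finset.sum_congr rfl fun l _ => hres l
  obtain ⟨⟨s, k, hk⟩, hs⟩ := IsLocalization.exists_of_eq (M := Submonoid.powers π) hz2
  simp only at hs hk
  subst hk
  have hK : (z * π ^ (M + k)) ^ 2 ∈ Ideal.span (Set.range fun l => (x l ^ (r + (M + k))) ^ 2) := by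
    have h1 : (z * π ^ (M + k)) ^ 2 = π ^ k * (z ^ 2 * π ^ M) * π ^ (M + k) := by ring
    rw [h1, hs, Finset.sum_mul, Finset.mul_sum, Finset.sum_mul]
    refine Ideal.sum_mem _ fun l _ => ?_
    have h2 : π ^ k * (A l * x l.1 ^ M * π ^ (2 * r)) * π ^ (M + k) =
        (A l * (∏ j ∈ (U m).1.erase l.1, x j) ^ (2 * r + 2 * k + M)) *
          (x l.1 ^ (r + (M + k))) ^ 2 := by
      have h3 : π ^ (2 * r + 2 * k + M) = x l.1 ^ (2 * r + 2 * k + M) *
          (∏ j ∈ (U m).1.erase l.1, x j) ^ (2 * r + 2 * k + M) := by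
        rw [← mul_pow, hx l]
      calc π ^ k * (A l * x l.1 ^ M * π ^ (2 * r)) * π ^ (M + k)
          = A l * x l.1 ^ M * π ^ (2 * r + 2 * k + M) := by ring
        _ = _ := by rw [h3]; ring
    rw [h2]
    exact Ideal.mul_mem_left _ _ (Ideal.subset_span (Set.mem_range_self l.1))
  have hH := H (r + (M + k)) (by omega) _ hK
  obtain ⟨β, hβ⟩ := Ideal.mem_span_range_iff_exists_fun.mp hH
  -- the cochain
  let b' : Cochain x m := fun S => IsLocalization.mk' (L x S.1) (∑ j ∈ Finset.univ \ S.1, β j)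
    (⟨(∏ j ∈ S.1, x j) ^ (r + (M + k)), r + (M + k), rfl⟩ :
      Submonoid.powers (∏ j ∈ S.1, x j))
  have hb' : ∀ S, b' S * algebraMap B (L x S.1) ((∏ j ∈ S.1, x j) ^ (r + (M + k))) =
      algebraMap B (L x S.1) (∑ j ∈ Finset.univ \ S.1, β j) := fun S =>
    IsLocalization.mk'_spec (L x S.1) _ (⟨(∏ j ∈ S.1, x j) ^ (r + (M + k)), r + (M + k), rfl⟩ :
      Submonoid.powers (∏ j ∈ S.1, x j))
  refine ⟨b', ?_⟩
  let b2 : ∀ l : {l : Fin (m + 1) // l ∈ (U m).1}, L x ((U m).1.erase l.1) :=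
    fun l => b' (del (U m) l)
  have hb2 : ∀ l : {l : Fin (m + 1) // l ∈ (U m).1}, b2 l * algebraMap B (L x ((U m).1.erase l.1))
      ((∏ j ∈ (U m).1.erase l.1, x j) ^ (r + (M + k))) =
        algebraMap B (L x ((U m).1.erase l.1)) (β l.1) := by
    intro l
    have h1 : (∑ j ∈ Finset.univ \ (U m).1.erase l.1, β j) = β l.1 := by
      have : Finset.univ \ (U m).1.erase l.1 = {l.1} := by
        ext j
        simp [U]
      rw [this, Finset.sum_singleton]
    have key : b2 l * algebraMap B (L x ((U m).1.erase l.1))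
      ((∏ j ∈ (U m).1.erase l.1, x j) ^ (r + (M + k))) =
        algebraMap B (L x ((U m).1.erase l.1)) (∑ j ∈ Finset.univ \ (U m).1.erase l.1, β j) :=
      hb' (del (U m) l)
    rw [key, h1]
  have hres2 : ∀ l : {l : Fin (m + 1) // l ∈ (U m).1},
      res x (Finset.erase_subset l.1 (U m).1) (b2 l) *
        algebraMap B (L x (U m).1) π ^ (r + (M + k)) =
      algebraMap B (L x (U m).1) (β l.1 * x l.1 ^ (r + (M + k))) := by
    intro l
    have h3 := congrArg (res x (Finset.erase_subset l.1 (U m).1)) (hb2 l)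
    rw [map_mul, res_algebraMap, res_algebraMap] at h3
    have h4 : π ^ (r + (M + k)) = (∏ j ∈ (U m).1.erase l.1, x j) ^ (r + (M + k)) *
        x l.1 ^ (r + (M + k)) := by
      rw [← mul_pow, mul_comm, hx l]
    rw [← map_pow, h4, map_mul, ← mul_assoc, h3, ← map_mul]
  funext S
  rw [eq_U S]
  have hunit : IsUnit (algebraMap B (L x (U m).1) π ^ (r + (M + k))) :=
    (IsLocalization.Away.algebraMap_isUnit π).pow _
  refine (hunit.mul_left_inj).1 ?_
  have h1 : d x m b' (U m) = ∑ l : {l : Fin (m + 1) // l ∈ (U m).1},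
      res x (Finset.erase_subset l.1 (U m).1) (b2 l) := by
    unfold d
    refine Finset.sum_congr rfl fun l _ => ?_
    rw [hsign, one_mul]
  rw [h1, Finset.sum_mul]
  rw [Finset.sum_congr rfl fun l _ => hres2 l, ← map_sum]
  have h2 : (∑ l : {l : Fin (m + 1) // l ∈ (U m).1}, β l.1 * x l.1 ^ (r + (M + k))) =
      z * π ^ (M + k) := by
    rw [← hβ]
    rw [Finset.sum_coe_sort (U m).1 (fun l => β l * x l ^ (r + (M + k)))]
    rfl
  rw [h2, map_mul, map_pow, ← hz, mul_assoc, ← pow_add]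

theorem taskTop : TaskTop := by
  intro hVan B _ _ hB zs hzs hzm hdim H n x hx i c hc hc2
  have hn : n ≤ zs.length := by
    have h1 := hx.1
    rw [← h1] at hdim
    exact_mod_cast hdim
  by_cases hi : i < zs.length
  · refine hVan B hB n x zs hzs (fun z hz => ?_) i hi c hc
    rw [hx.2]
    exact hzm z hz
  · push Not at hi
    rcases Nat.lt_or_ge n i with hin | hin
    · obtain ⟨j, rfl⟩ : ∃ j, i = j + 1 := ⟨i - 1, by omega⟩
      refine ⟨0, ?_⟩
      funext S
      exfalso
      have h1 := Finset.card_le_univ S.1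
      rw [S.2, Fintype.card_fin] at h1
      omega
    · have hin2 : i = n := by omega
      subst hin2
      rcases i with _ | m
      · exact case_zero x (H 0 x hx) c hc2
      · obtain ⟨b, hb⟩ := hc2
        exact case_top hB x (fun k hk z hz => H (m + 1) _ (sop_pow x hx k hk) z hz) c b hb

end H503R3.NF.Top
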